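import Pool.Agent.H694R2.QM.Defs
import Pool.Agent.H520R2.HalfChain

/-! Lemmas on circuits given as lists of functions. -/

namespace Pool.Agent.H694R2.QM

open Pool.Agent.H520R2 Pool.Agent.H520R2.NM

variable {X : Type} {B : Set (X → Bool)}

theorem Circ.append {P P' : List (List (X → Bool))} {L L' : List (X → Bool)} (h : Circ B P L)
    (h' : Circ B P' L') : Circ B (P' ++ P) (L' ++ L) := by
  have up : ∀ {L' : List (X → Bool)} {f : X → Bool}, (f ∈ B ∨ f ∈ L') → (f ∈ B ∨ f ∈ L' ++ L) := by
    intro L' f hf
    rcases hf with hf | hf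
    · exact Or.inl hf
    · exact Or.inr (List.mem_append_left _ hf)
  induction h' with
  | nil => simpa using h
  | and _ hf hg ih => exact Circ.and ih (up hf) (up hg)
  | or _ hf hg ih => exact Circ.or ih (up hf) (up hg)
  | any fs G _ hfs ih => exact Circ.any fs G ih (fun f hf => up (hfs f hf))

theorem Circ.comp {X' : Type} {B' : Set (X' → Bool)} (e : X' → X)
    (hB : ∀ b ∈ B, b ∘ e ∈ B') {P : List (List (X → Bool))} {L : List (X → Bool)}
    (h : Circ B P L) :
    Circ B' (P.map (List.map (fun f => f ∘ e))) (L.map (fun f => f ∘ e)) := by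
  have key : ∀ {L : List (X → Bool)} {f : X → Bool}, (f ∈ B ∨ f ∈ L) →
      (f ∘ e ∈ B' ∨ f ∘ e ∈ L.map (fun f => f ∘ e)) := by
    intro L f hf
    rcases hf with hf | hf
    · exact Or.inl (hB f hf)
    · exact Or.inr (List.mem_map_of_mem hf)
  induction h with
  | nil => exact Circ.nil
  | and _ hf hg ih => simpa [Function.comp_def] using Circ.and ih (key hf) (key hg)
  | or _ hf hg ih => simpa [Function.comp_def] using Circ.or ih (key hf) (key hg)
  | @any P L fs G _ hfs ih =>
    have := Circ.any (fs.map (fun f => f ∘ e)) G ih (by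
      intro f hf
      obtain ⟨f', hf', rfl⟩ := List.mem_map.mp hf
      exact key (hfs f' hf'))
    simpa [Function.comp_def, List.map_map] using this

theorem Circ.of_mprog {L : List (X → Bool)} (h : MProg B L) : Circ B [] L := by
  induction h with
  | nil => exact Circ.nil
  | and _ hf hg ih => exact Circ.and ih hf hg
  | or _ hf hg ih => exact Circ.or ih hf hg

/-- conjunction of a list of available functions -/
theorem and_prog {P : List (List (X → Bool))} {L : List (X → Bool)} (hL : Circ B P L)
    (f : X → Bool) (hf : Av B L f) (gs : List (X → Bool)) (hg : ∀ g ∈ gs, Av B L g) :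
    ∃ L', Circ B P (L' ++ L) ∧ L'.length ≤ gs.length ∧
      Av B (L' ++ L) (fun x => f x && gs.all (fun g => g x)) := by
  induction gs with
  | nil => exact ⟨[], by simpa using hL, by simp, by simpa using hf⟩
  | cons g gs ih =>
    obtain ⟨L', hL', hlen, hav⟩ := ih (fun g' hg' => hg g' (List.mem_cons_of_mem _ hg'))
    have p1 := Circ.and hL' hav ((hg g List.mem_cons_self).mono L')
    refine ⟨_ :: L', p1, by simp only [List.length_cons]; omega, Or.inr ?_⟩
    have : (fun x => f x && (g :: gs).all (fun g => g x)) =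
        (fun x => (f x && gs.all (fun g => g x)) && g x) := by
      funext x
      simp only [List.all_cons]
      cases f x <;> cases g x <;> simp
    rw [this]
    exact List.mem_cons_self

/-- conjunctions of many lists -/
theorem ands_prog {P : List (List (X → Bool))} {L : List (X → Bool)} (hL : Circ B P L)
    (htrue : (fun _ => true) ∈ B) (m : ℕ) (gss : List (List (X → Bool)))
    (hg : ∀ gs ∈ gss, ∀ g ∈ gs, Av B L g) (hlen : ∀ gs ∈ gss, gs.length ≤ m) :
    ∃ L', Circ B P (L' ++ L) ∧ L'.length ≤ gss.length * m ∧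
      ∀ gs ∈ gss, Av B (L' ++ L) (fun x => gs.all (fun g => g x)) := by
  induction gss with
  | nil => exact ⟨[], by simpa using hL, by simp, by simp⟩
  | cons gs gss ih =>
    obtain ⟨L', hL', h1, h2⟩ := ih (fun gs h => hg gs (List.mem_cons_of_mem _ h))
      (fun gs h => hlen gs (List.mem_cons_of_mem _ h))
    obtain ⟨L'', hL'', h3, h4⟩ := and_prog hL' (fun _ => true) (Or.inl htrue) gs
      (fun g h => (hg gs List.mem_cons_self g h).mono L')
    refine ⟨L'' ++ L', by rw [List.append_assoc]; exact hL'', ?_, ?_⟩
    · have := hlen gs List.mem_cons_self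
      simp only [List.length_append, List.length_cons, Nat.succ_mul]
      omega
    · intro gs' hgs'
      rw [List.append_assoc]
      rcases List.mem_cons.mp hgs' with rfl | hgs'
      · simpa using h4
      · exact (h2 gs' hgs').mono L''

/-- The lift of a wire to a bigger circuit. -/
theorem to_circuit {ι : Type} {B : Set ((ι → Bool) → Bool)} (hB : B ⊆ VB ι)
    {P : List (List ((ι → Bool) → Bool))} {L : List ((ι → Bool) → Bool)} (h : Circ B P L) :
    ∃ (n : ℕ) (C : Circuit ι n), C.size ≤ L.length ∧ C.fanins = P.map List.length ∧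
      (∀ x, C.probes x = P.flatten.map (fun f => f x)) ∧
      ∀ f ∈ L, ∃ a : Wire ι n, ∀ x, a.eval x (C.vals x) = f x := by
  -- wires for available functions
  have key : ∀ {n : ℕ} {C : Circuit ι n} {L : List ((ι → Bool) → Bool)},
      (∀ f ∈ L, ∃ a : Wire ι n, ∀ x, a.eval x (C.vals x) = f x) →
      ∀ {f : (ι → Bool) → Bool}, (f ∈ B ∨ f ∈ L) → ∃ a : Wire ι n, ∀ x, a.eval x (C.vals x) = f x := by
    intro n C L hC f hf
    rcases hf with hf | hf
    · rcases hB hf with ⟨b, rfl⟩ | ⟨i, rfl⟩
      · exact ⟨Wire.const b, fun x => rfl⟩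
      · exact ⟨Wire.input i, fun x => rfl⟩
    · exact hC f hf
  induction h with
  | nil => exact ⟨0, Circuit.empty, le_rfl, rfl, fun x => rfl, by simp⟩
  | @and P L f g _ hf hg ih =>
    obtain ⟨n, C, h1, h2, h3, h4⟩ := ih
    obtain ⟨a, ha⟩ := key h4 hf
    obtain ⟨b, hb⟩ := key h4 hg
    refine ⟨n + 1, Circuit.and C a b, by simp only [Circuit.size, List.length_cons]; omega, h2, h3, ?_⟩
    intro f' hf'
    rcases List.mem_cons.mp hf' with rfl | hf'
    · refine ⟨Wire.gate (Fin.last n), fun x => ?_⟩
      show (Circuit.and C a b).vals x (Fin.last n) = _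
      simp only [Circuit.vals, Fin.snoc_last]
      rw [ha, hb]
    · obtain ⟨c, hc⟩ := h4 f' hf'
      cases c with
      | input i => exact ⟨Wire.input i, fun x => hc x⟩
      | const b => exact ⟨Wire.const b, fun x => hc x⟩
      | gate j =>
        refine ⟨Wire.gate j.castSucc, fun x => ?_⟩
        show (Circuit.and C a b).vals x j.castSucc = _
        simp only [Circuit.vals, Fin.snoc_castSucc]
        exact hc x
  | @or P L f g _ hf hg ih =>
    obtain ⟨n, C, h1, h2, h3, h4⟩ := ih
    obtain ⟨a, ha⟩ := key h4 hf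
    obtain ⟨b, hb⟩ := key h4 hg
    refine ⟨n + 1, Circuit.or C a b, by simp only [Circuit.size, List.length_cons]; omega, h2, h3, ?_⟩
    intro f' hf'
    rcases List.mem_cons.mp hf' with rfl | hf'
    · refine ⟨Wire.gate (Fin.last n), fun x => ?_⟩
      show (Circuit.or C a b).vals x (Fin.last n) = _
      simp only [Circuit.vals, Fin.snoc_last]
      rw [ha, hb]
    · obtain ⟨c, hc⟩ := h4 f' hf'
      cases c with
      | input i => exact ⟨Wire.input i, fun x => hc x⟩
      | const b => exact ⟨Wire.const b, fun x => hc x⟩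
      | gate j =>
        refine ⟨Wire.gate j.castSucc, fun x => ?_⟩
        show (Circuit.or C a b).vals x j.castSucc = _
        simp only [Circuit.vals, Fin.snoc_castSucc]
        exact hc x
  | @any P L fs G _ hfs ih =>
    obtain ⟨n, C, h1, h2, h3, h4⟩ := ih
    have hw : ∀ j : Fin fs.length, ∃ a : Wire ι n, ∀ x, a.eval x (C.vals x) = fs[j] x :=
      fun j => key h4 (hfs _ (List.getElem_mem _))
    choose a ha using hw
    have hofn : ∀ x, List.ofFn (fun j => (a j).eval x (C.vals x)) = fs.map (fun f => f x) := by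
      intro x
      apply List.ext_getElem
      · simp
      · intro i h1 h2
        simp only [List.getElem_ofFn, List.getElem_map]
        exact ha _ x
    refine ⟨n + 1, Circuit.any C fs.length 1 (fun v _ => G (List.ofFn v)) a, ?_, ?_, ?_, ?_⟩
    · simp only [Circuit.size, List.length_cons]; omega
    · simp only [Circuit.fanins, List.map_cons, h2]
    · intro x
      simp only [Circuit.probes, List.flatten_cons, List.map_append, h3 x, hofn x]
    · intro f' hf'
      rcases List.mem_cons.mp hf' with rfl | hf'
      · refine ⟨Wire.gate (Fin.natAdd n (0 : Fin 1)), fun x => ?_⟩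
        show (Circuit.any C fs.length 1 (fun v _ => G (List.ofFn v)) a).vals x
          (Fin.natAdd n (0 : Fin 1)) = _
        simp only [Circuit.vals, Fin.append_right]
        rw [hofn x]
      · obtain ⟨c, hc⟩ := h4 f' hf'
        cases c with
        | input i => exact ⟨Wire.input i, fun x => hc x⟩
        | const b => exact ⟨Wire.const b, fun x => hc x⟩
        | gate j =>
          refine ⟨Wire.gate (Fin.castAdd 1 j), fun x => ?_⟩
          show (Circuit.any C fs.length 1 (fun v _ => G (List.ofFn v)) a).vals x
            (Fin.castAdd 1 j) = _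
          simp only [Circuit.vals, Fin.append_left]
          exact hc x

/-- A counter for the changes of the inputs of the arbitrary gates along increasing chains. -/
theorem exists_rank {ι : Type} {B : Set ((ι → Bool) → Bool)} (hB : B ⊆ VB ι)
    {P : List (List ((ι → Bool) → Bool))} {L : List ((ι → Bool) → Bool)} (h : Circ B P L) :
    ∃ r : (ι → Bool) → ℕ, (∀ x, r x < (P.map (fun fs => fs.length + 1)).prod) ∧
      ∀ x y, x ≤ y → r x < r y ∨ (r x = r y ∧ (∀ p ∈ P.flatten, p x = p y) ∧ ∀ f ∈ L, f x ≤ f y) := by
  obtain ⟨n, C, h1, h2, h3, h4⟩ := to_circuit hB h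
  refine ⟨C.rank, fun x => ?_, fun x y hxy => ?_⟩
  · have := C.rank_lt x
    rw [h2, List.map_map] at this
    exact this
  · rcases C.rank_mono hxy with h5 | ⟨h5, h6, h7⟩
    · exact Or.inl h5
    · refine Or.inr ⟨h5, ?_, ?_⟩
      · rw [h3, h3] at h6
        intro p hp
        exact List.map_inj_left.mp h6 p hp
      · intro f hf
        obtain ⟨a, ha⟩ := h4 f hf
        rw [← ha x, ← ha y]
        exact a.eval_mono hxy h7

end Pool.Agent.H694R2.QM
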