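import Pool.Agent.H520R2.HCDef

/-!
# Refutations of quantified Boolean formulas: definitions

The quantified Boolean formulas are `∃ x ∀ z ∃ y ∀ v φ(x, z, y, v)` with one universal variable
`z` in the second block. A refutation is a circuit all of whose gates are lines.
-/

namespace Pool.Agent.H694R2.QM

/-- An assignment of the variables `x`, `z`, `y`, `v`. -/
structure Asg (N q : ℕ) where
  /-- the first, existential block -/
  x : Fin N → Bool
  /-- the universal variable `z` -/
  z : Bool
  /-- the third, existential block -/
  y : Fin q → Bool
  /-- the last, universal block -/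
  v : Fin q → Bool

/-- The functions that are free of charge in a refutation: constants, the variables `x i`
(but not their negations), and the literals of all other variables. -/
def Lits (N q : ℕ) : Set (Asg N q → Bool) :=
  {f | (∃ b, f = fun _ => b) ∨ (∃ i, f = fun A => A.x i) ∨ (∃ b, f = fun A => A.z == b) ∨
    (∃ i b, f = fun A => A.y i == b) ∨ ∃ i b, f = fun A => A.v i == b}

/-- The functions that are free of charge for a circuit with `N` inputs: constants and the
variables. -/
def Vars (N : ℕ) : Set ((Fin N → Bool) → Bool) :=
  {f | (∃ b, f = fun _ => b) ∨ ∃ i, f = fun x => x i}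

/-- Circuits over the free functions `B`. `Circ B P L` : there is a circuit with `L.length` gates,
computing the functions in `L`; each gate is an AND gate or an OR gate of fan-in two or an
arbitrary gate `G`, which may read any number of earlier gates or free functions; `P` is the list of
the lists of the functions read by the arbitrary gates. -/
inductive Circ {X : Type} (B : Set (X → Bool)) : List (List (X → Bool)) → List (X → Bool) → Prop
  | nil : Circ B [] []
  | and {P : List (List (X → Bool))} {L : List (X → Bool)} {f g : X → Bool} :
      Circ B P L → (f ∈ B ∨ f ∈ L) → (g ∈ B ∨ g ∈ L) → Circ B P ((fun x => f x && g x) :: L)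
  | or {P : List (List (X → Bool))} {L : List (X → Bool)} {f g : X → Bool} :
      Circ B P L → (f ∈ B ∨ f ∈ L) → (g ∈ B ∨ g ∈ L) → Circ B P ((fun x => f x || g x) :: L)
  | any {P : List (List (X → Bool))} {L : List (X → Bool)} (fs : List (X → Bool))
      (G : List Bool → Bool) :
      Circ B P L → (∀ f ∈ fs, f ∈ B ∨ f ∈ L) →
      Circ B (fs :: P) ((fun x => G (fs.map fun f => f x)) :: L)

section

variable {N q : ℕ} (φ : Asg N q → Prop)

/-- The line `g` follows from the lines in `Γ` and the matrix `φ`: for all `x, z, y`, if `φ` and all
lines in `Γ` hold for all `v` then `g` holds for all `v`. This includes every sound propositional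
inference, the universal reduction of the variables `v` and, for lines in which only `x` and `z`
occur, every inference that is sound for the quantified variables `y, v`. -/
def Follows (Γ : Set (Asg N q → Bool)) (g : Asg N q → Bool) : Prop :=
  ∀ x z y, (∀ v, φ ⟨x, z, y, v⟩ ∧ ∀ f ∈ Γ, f ⟨x, z, y, v⟩ = true) → ∀ v, g ⟨x, z, y, v⟩ = true

/-- The line `f` does not depend on the variables `y`, `v`. -/
def NoYV (f : Asg N q → Bool) : Prop := ∀ x z y v y' v', f ⟨x, z, y, v⟩ = f ⟨x, z, y', v'⟩

/-- `g` arises from `f` by universal reduction: `f` does not depend on `y`, `v`, and `g` is `f`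
with the universal variable `z` replaced by a constant. -/
def IsRed (f g : Asg N q → Bool) : Prop :=
  NoYV f ∧ ∃ b, ∀ x z y v, g ⟨x, z, y, v⟩ = f ⟨x, b, y, v⟩

/-- The lines among `L` that can be derived with at most `k` rounds of universal reductions of the
variable `z`. -/
def Level (L : List (Asg N q → Bool)) : ℕ → Set (Asg N q → Bool)
  | 0 => {g | g ∈ L ∧ Follows φ ∅ g}
  | k + 1 => {g | g ∈ L ∧ Follows φ (Level L k ∪ {f | f ∈ L ∧ ∃ f' ∈ Level L k, IsRed f' f}) g}

/-- The lines `L` contain a refutation of `∃ x ∀ z ∃ y ∀ v φ` with at most `K` rounds of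
universal reductions of `z`. -/
def Refutes (L : List (Asg N q → Bool)) (K : ℕ) : Prop := (fun _ => false) ∈ Level φ L K

end

/-- The vertex set given by `S` is a clique containing at least half of the `⌊√N⌋` vertices of
the graph coded by `x` (for `a < b` the pair `a, b` is an edge if bit number `a ⌊√N⌋ + b` is one). -/
def IsHalf (N : ℕ) (x : Fin N → Bool) (S : Fin (Nat.sqrt N) → Bool) : Prop :=
  Nat.sqrt N ≤ 2 * (Finset.univ.filter fun a => S a = true).card ∧
    ∀ a b, a < b → S a = true → S b = true →
      (List.ofFn x).getD (a.val * Nat.sqrt N + b.val) false = true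

/-- The matrix of the quantified Boolean formula `HC N`: if `z` is false then `y` is a half-clique
of the graph `x`, and if `z` is true then `v` is not. So `∃ y ∀ v` of it says that `z` is false
if `x` has a half-clique and true otherwise. -/
def HCMatrix (N : ℕ) (A : Asg N (Nat.sqrt N)) : Prop :=
  (A.z = false → IsHalf N A.x A.y) ∧ (A.z = true → ¬ IsHalf N A.x A.v)

end Pool.Agent.H694R2.QM
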