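import Pool.Agent.H694R2.QM.Circ

/-! Strategy extraction. -/

namespace Pool.Agent.H694R2.QM

open Pool.Agent.H520R2 Pool.Agent.H520R2.NM

variable {N q : ℕ} {φ : Asg N q → Prop} {L : List (Asg N q → Bool)}

/-- the restriction to `z = b`, `y = v = 0` -/
def rs (N q : ℕ) (b : Bool) (x : Fin N → Bool) : Asg N q := ⟨x, b, fun _ => false, fun _ => false⟩

theorem level_sub : ∀ k, ∀ f ∈ Level φ L k, f ∈ L
  | 0, _, h => h.1
  | _ + 1, _, h => h.1

theorem level_follows : ∀ k (g : Asg N q → Bool), g ∈ L → Follows φ (Level φ L k) g →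
    g ∈ Level φ L k
  | 0, g, hg, h => by
    refine ⟨hg, fun x z y hv => ?_⟩
    apply h x z y
    intro v
    refine ⟨(hv v).1, fun f hf => ?_⟩
    exact hf.2 x z y (fun v => ⟨(hv v).1, by simp⟩) v
  | k + 1, g, hg, h => by
    refine ⟨hg, fun x z y hv => ?_⟩
    apply h x z y
    intro v
    refine ⟨(hv v).1, fun f hf => ?_⟩
    exact hf.2 x z y hv v

theorem level_mono (k : ℕ) : Level φ L k ⊆ Level φ L (k + 1) := by
  intro f hf
  refine ⟨level_sub k f hf, fun x z y hv v => ?_⟩
  exact (hv v).2 f (Or.inl hf)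

theorem level_mono' {j k : ℕ} (h : j ≤ k) : Level φ L j ⊆ Level φ L k := by
  induction h with
  | refl => exact fun _ h => h
  | step _ ih => exact fun f hf => level_mono _ (ih hf)

open Classical in
/-- the lines of level `k` that do not depend on `y`, `v` -/
noncomputable def Z (φ : Asg N q → Prop) (L : List (Asg N q → Bool)) (k : ℕ) :
    List (Asg N q → Bool) := L.filter (fun f => f ∈ Level φ L k ∧ NoYV f)

theorem mem_Z {k : ℕ} {f : Asg N q → Bool} : f ∈ Z φ L k ↔ f ∈ Level φ L k ∧ NoYV f := by
  classical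
  unfold Z
  rw [List.mem_filter, decide_eq_true_eq]
  exact ⟨fun h => h.2, fun h => ⟨level_sub k f h.1, h⟩⟩

theorem length_Z (k : ℕ) : (Z φ L k).length ≤ L.length := by
  classical
  exact List.length_filter_le _ _

/-- the functions whose conjunction is `M k` -/
noncomputable def Ml (φ : Asg N q → Prop) (L : List (Asg N q → Bool)) (k : ℕ) :
    List ((Fin N → Bool) → Bool) := (Z φ L k).map (fun f => f ∘ rs N q true)

/-- the functions whose conjunction is `Q k` -/
noncomputable def Ql (φ : Asg N q → Prop) (L : List (Asg N q → Bool)) (k : ℕ) :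
    List ((Fin N → Bool) → Bool) :=
  (Z φ L k).map (fun f => f ∘ rs N q false) ++ (Z φ L k).map (fun f => f ∘ rs N q true)

/-- all lines of level `k` in `x`, `z` are true for `z = 1` -/
noncomputable def M (φ : Asg N q → Prop) (L : List (Asg N q → Bool)) (k : ℕ)
    (x : Fin N → Bool) : Bool := (Ml φ L k).all (fun g => g x)

/-- all lines of level `k` in `x`, `z` are true for both values of `z` -/
noncomputable def Q (φ : Asg N q → Prop) (L : List (Asg N q → Bool)) (k : ℕ)
    (x : Fin N → Bool) : Bool := (Ql φ L k).all (fun g => g x)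

theorem M_iff {k : ℕ} {x : Fin N → Bool} :
    M φ L k x = true ↔ ∀ f ∈ Z φ L k, f (rs N q true x) = true := by
  unfold M Ml
  simp [List.all_eq_true]

theorem Q_iff {k : ℕ} {x : Fin N → Bool} :
    Q φ L k x = true ↔ ∀ f ∈ Z φ L k, ∀ b, f (rs N q b x) = true := by
  unfold Q Ql
  simp only [List.all_append, Bool.and_eq_true, List.all_map, List.all_eq_true,
    Function.comp]
  constructor
  · rintro ⟨h1, h2⟩ f hf b
    cases b
    · exact h1 f hf
    · exact h2 f hf
  · intro h
    exact ⟨fun f hf => h f hf false, fun f hf => h f hf true⟩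

theorem level_true {w : Bool} {x : Fin N → Bool} {y : Fin q → Bool}
    (hy : ∀ v, φ ⟨x, w, y, v⟩) : ∀ k, (∀ j < k, Q φ L j x = true) →
    ∀ f ∈ Level φ L k, ∀ v, f ⟨x, w, y, v⟩ = true
  | 0, _, f, hf, v => hf.2 x w y (fun v => ⟨hy v, by simp⟩) v
  | k + 1, hQ, f, hf, v => by
    apply hf.2 x w y
    intro v
    refine ⟨hy v, ?_⟩
    rintro g (hg | ⟨-, g', hg', hind, b, hb⟩)
    · exact level_true hy k (fun j hj => hQ j (by omega)) g hg v
    · rw [hb, hind x b y v (fun _ => false) (fun _ => false)]
      exact Q_iff.mp (hQ k (by omega)) g' (mem_Z.mpr ⟨hg', hind⟩) b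

/-- **Strategy extraction.** -/
theorem extract {h : (Fin N → Bool) → Bool}
    (hφ : ∀ x, ∃ y, ∀ v, φ ⟨x, !h x, y, v⟩) {K : ℕ} (hR : Refutes φ L K) (x : Fin N → Bool) :
    h x = true ↔ ∃ k ≤ K, M φ L k x = false ∧ ∀ j < k, Q φ L j x = true := by
  classical
  obtain ⟨y, hy⟩ := hφ x
  have hK : Q φ L K x = false := by
    rw [← Bool.not_eq_true, Q_iff]
    intro hcon
    have := hcon _ (mem_Z.mpr ⟨hR, fun _ _ _ _ _ _ => rfl⟩) true
    simp at this
  have hex : ∃ k, Q φ L k x = false := ⟨K, hK⟩
  obtain ⟨k, hk1, hk2⟩ : ∃ k, Q φ L k x = false ∧ ∀ j < k, Q φ L j x = true :=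
    ⟨Nat.find hex, Nat.find_spec hex, fun j hj => by
      have := Nat.find_min hex hj
      rwa [Bool.not_eq_false] at this⟩
  have hkK : k ≤ K := by
    by_contra hcon
    have := hk2 K (by omega)
    rw [hK] at this
    exact absurd this (by simp)
  have htrue := level_true (L := L) hy k hk2
  -- the falsified line
  have hfalse : ∃ f ∈ Z φ L k, f (rs N q (h x) x) = false := by
    rw [← Bool.not_eq_true, Q_iff] at hk1
    push Not at hk1
    obtain ⟨f, hf, b, hb⟩ := hk1
    refine ⟨f, hf, ?_⟩
    have hf' := mem_Z.mp hf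
    have h1 : f (rs N q (!h x) x) = true := by
      have := htrue f hf'.1 (fun _ => false)
      rw [hf'.2 x (!h x) y (fun _ => false) (fun _ => false) (fun _ => false)] at this
      exact this
    have hbx : b = h x := by
      by_contra hne
      have : b = !h x := by
        cases b <;> cases hx : h x <;> simp_all
      rw [this] at hb
      exact hb h1
    rw [← hbx]
    simpa using hb
  have hup : ∀ k' < k, M φ L k' x = true := by
    intro k' hk'
    rw [M_iff]
    intro f hf
    exact Q_iff.mp (hk2 k' hk') f hf true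
  constructor
  · intro hx
    refine ⟨k, hkK, ?_, hk2⟩
    rw [← Bool.not_eq_true, M_iff]
    intro hcon
    obtain ⟨f, hf, hff⟩ := hfalse
    rw [hx, hcon f hf] at hff
    exact absurd hff (by simp)
  · rintro ⟨k', hk'K, hM, hQ⟩
    have hkk : k' = k := by
      rcases lt_trichotomy k' k with hlt | heq | hgt
      · rw [hup k' hlt] at hM
        exact absurd hM (by simp)
      · exact heq
      · have := hQ k hgt
        rw [hk1] at this
        exact absurd this (by simp)
    subst hkk
    by_contra hx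
    rw [Bool.not_eq_true] at hx
    have : M φ L k' x = true := by
      rw [M_iff]
      intro f hf
      have hf' := mem_Z.mp hf
      have := htrue f hf'.1 (fun _ => false)
      rw [hx, hf'.2 x (!false) y (fun _ => false) (fun _ => false) (fun _ => false)] at this
      exact this
    rw [this] at hM
    exact absurd hM (by simp)

theorem lits_rs (b : Bool) : ∀ f ∈ Lits N q, f ∘ rs N q b ∈ Vars N := by
  rintro f (⟨c, rfl⟩ | ⟨i, rfl⟩ | ⟨c, rfl⟩ | ⟨i, c, rfl⟩ | ⟨i, c, rfl⟩)
  · exact Or.inl ⟨c, rfl⟩
  · exact Or.inr ⟨i, rfl⟩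
  · exact Or.inl ⟨b == c, rfl⟩
  · exact Or.inl ⟨false == c, rfl⟩
  · exact Or.inl ⟨false == c, rfl⟩

/-- The circuit for all the functions `M k`, `Q k`. -/
theorem decision (K : ℕ) {P : List (List (Asg N q → Bool))} (hL : Circ (Lits N q) P L) :
    ∃ L', L'.length ≤ 2 * L.length + (K + 1) * (3 * L.length) ∧
      Circ (Vars N) (P.map (List.map (fun f => f ∘ rs N q true)) ++
        P.map (List.map (fun f => f ∘ rs N q false))) L' ∧
      ∀ k ≤ K, Av (Vars N) L' (M φ L k) ∧ Av (Vars N) L' (Q φ L k) := by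
  have h0 := hL.comp (rs N q false) (lits_rs false)
  have h1 := hL.comp (rs N q true) (lits_rs true)
  have h2 := h0.append h1
  have hmem : ∀ b, ∀ k, ∀ g ∈ (Z φ L k).map (fun f => f ∘ rs N q b),
      Av (Vars N) (L.map (fun f => f ∘ rs N q true) ++ L.map (fun f => f ∘ rs N q false)) g := by
    intro b k g hg
    obtain ⟨f, hf, rfl⟩ := List.mem_map.mp hg
    have hfL := level_sub k f (mem_Z.mp hf).1
    right
    rw [List.mem_append]
    cases b
    · exact Or.inr (List.mem_map_of_mem hfL)
    · exact Or.inl (List.mem_map_of_mem hfL)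
  obtain ⟨L1, a1, a2, a3⟩ := ands_prog h2 (Or.inl ⟨true, rfl⟩) L.length
    ((List.range (K + 1)).map (Ml φ L)) (by
      intro gs hgs g hg
      obtain ⟨k, -, rfl⟩ := List.mem_map.mp hgs
      exact hmem true k g hg) (by
      intro gs hgs
      obtain ⟨k, -, rfl⟩ := List.mem_map.mp hgs
      unfold Ml
      rw [List.length_map]
      exact length_Z k)
  obtain ⟨L2, b1, b2, b3⟩ := ands_prog a1 (Or.inl ⟨true, rfl⟩) (2 * L.length)
    ((List.range (K + 1)).map (Ql φ L)) (by
      intro gs hgs g hg
      obtain ⟨k, -, rfl⟩ := List.mem_map.mp hgs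
      rcases List.mem_append.mp hg with hg | hg
      · exact (hmem false k g hg).mono L1
      · exact (hmem true k g hg).mono L1) (by
      intro gs hgs
      obtain ⟨k, -, rfl⟩ := List.mem_map.mp hgs
      unfold Ql
      rw [List.length_append, List.length_map, List.length_map]
      have := length_Z (φ := φ) (L := L) k
      omega)
  refine ⟨_, ?_, b1, ?_⟩
  · simp only [List.length_append, List.length_map] at a2 b2 ⊢
    rw [List.length_range] at a2 b2
    have e1 : (K + 1) * (2 * L.length) + (K + 1) * L.length = (K + 1) * (3 * L.length) := by ring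
    omega
  · intro k hk
    have hk' : k ∈ List.range (K + 1) := List.mem_range.mpr (by omega)
    exact ⟨(a3 _ (List.mem_map_of_mem hk')).mono L2, b3 _ (List.mem_map_of_mem hk')⟩

end Pool.Agent.H694R2.QM
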