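import Pool.Agent.H694R2.QM.Extract

/-! The lower bound. -/

namespace Pool.Agent.H694R2.QM

open Pool.Agent.H520R2 Pool.Agent.H520R2.NM Pool.Agent.H520R2.HC

open Classical in
/-- the characteristic function of the half-clique problem -/
noncomputable def hc (N : ℕ) (x : Fin N → Bool) : Bool := decide (List.ofFn x ∈ HalfClique)

theorem isHalf_iff (N : ℕ) (x : Fin N → Bool) :
    (∃ S, IsHalf N x S) ↔ List.ofFn x ∈ HalfClique := by
  classical
  unfold HalfClique IsHalf
  simp only [Set.mem_ofPred_eq, List.length_ofFn]
  constructor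
  · rintro ⟨S, h1, h2⟩
    refine ⟨(Finset.univ.filter fun a => S a = true).map ⟨Fin.val, Fin.val_injective⟩, ?_, ?_, ?_⟩
    · rw [Finset.card_map]; exact h1
    · intro a ha
      rw [Finset.mem_map] at ha
      obtain ⟨a', -, rfl⟩ := ha
      exact a'.2
    · intro a ha b hb hab
      rw [Finset.mem_map] at ha hb
      obtain ⟨a', ha', rfl⟩ := ha
      obtain ⟨b', hb', rfl⟩ := hb
      exact h2 a' b' hab (by simpa using ha') (by simpa using hb')
  · rintro ⟨S, h1, h2, h3⟩
    refine ⟨fun a => decide ((a : ℕ) ∈ S), ?_, ?_⟩
    · have : S.card = (Finset.univ.filter fun a : Fin (Nat.sqrt N) =>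
          decide ((a : ℕ) ∈ S) = true).card := by
        symm
        apply Finset.card_bij (fun (a : Fin (Nat.sqrt N)) _ => (a : ℕ))
        · intro a ha
          simpa using ha
        · intro a _ b _ h
          exact Fin.ext h
        · intro a ha
          exact ⟨⟨a, h2 a ha⟩, by simpa using ha, rfl⟩
      rw [← this]
      exact h1
    · intro a b hab ha hb
      exact h3 a (by simpa using ha) b (by simpa using hb) hab

theorem hc_strategy (N : ℕ) (x : Fin N → Bool) :
    ∃ y, ∀ v, HCMatrix N ⟨x, !hc N x, y, v⟩ := by
  classical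
  by_cases h : ∃ S, IsHalf N x S
  · obtain ⟨S, hS⟩ := h
    refine ⟨S, fun v => ⟨fun _ => hS, fun hz => ?_⟩⟩
    have : hc N x = true := by
      unfold hc
      rw [decide_eq_true_eq, ← isHalf_iff]
      exact ⟨S, hS⟩
    simp [this] at hz
  · refine ⟨fun _ => false, fun v => ⟨fun hz => ?_, fun _ hv => h ⟨v, hv⟩⟩⟩
    have : hc N x = false := by
      unfold hc
      rw [decide_eq_false_iff_not, ← isHalf_iff]
      exact h
    simp [this] at hz

theorem hc_false (N : ℕ) (x : Fin N → Bool) :
    ∃ z, ∀ y, ∃ v, ¬ HCMatrix N ⟨x, z, y, v⟩ := by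
  classical
  by_cases h : ∃ S, IsHalf N x S
  · obtain ⟨S, hS⟩ := h
    exact ⟨true, fun y => ⟨S, fun hm => hm.2 rfl hS⟩⟩
  · exact ⟨false, fun y => ⟨fun _ => false, fun hm => h ⟨y, hm.1 rfl⟩⟩⟩

theorem vars_sub (N : ℕ) : Vars N ⊆ VB (Fin N) := fun _ h => h

/-- the number of true bits in a list is monotone -/
theorem countP_lt_of {α : Type*} (l : List α) (p p' : α → Bool) (h : ∀ a ∈ l, p a ≤ p' a)
    (hne : ∃ a ∈ l, p a ≠ p' a) : l.countP p < l.countP p' := by
  induction l with
  | nil => simp at hne
  | cons a l ih =>
    rw [List.countP_cons, List.countP_cons]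
    have h1 : l.countP p ≤ l.countP p' := by
      apply List.countP_mono_left
      intro b hb hpb
      have := h b (List.mem_cons_of_mem _ hb)
      rw [hpb] at this
      exact top_le_iff.mp this
    have h2 := h a List.mem_cons_self
    by_cases ha : p a = p' a
    · have h3 := ih (fun b hb => h b (List.mem_cons_of_mem _ hb)) (by
        obtain ⟨b, hb, hbne⟩ := hne
        rcases List.mem_cons.mp hb with rfl | hb
        · exact absurd ha hbne
        · exact ⟨b, hb, hbne⟩)
      rw [ha]
      omega
    · have h4 : p a = false ∧ p' a = true := by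
        revert h2 ha
        cases p a <;> cases p' a <;> simp
      rw [h4.1, h4.2]
      simp only [Bool.false_eq_true, if_false, if_true]
      omega

theorem lower (N t K : ℕ) (ht : 2 ≤ t)
    (P : List (List (Asg N (Nat.sqrt N) → Bool))) (L : List (Asg N (Nat.sqrt N) → Bool))
    (hL : Circ (Lits N (Nat.sqrt N)) P L) (hR : Refutes (HCMatrix N) L K)
    (hsize : (3 * K + 5) * (L.length + (P.map List.length).sum + 1) < 2 ^ t) :
    N / (1600 * t ^ 10) ^ 2 < 2 * (2 * K + 3) * (P.map (fun fs => fs.length + 1)).prod := by
  classical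
  set Pr := (P.map (fun fs => fs.length + 1)).prod with hPr
  -- ranks of the two copies
  have h0 := hL.comp (rs N (Nat.sqrt N) false) (lits_rs false)
  have h1 := hL.comp (rs N (Nat.sqrt N) true) (lits_rs true)
  obtain ⟨r0, r0a, r0b⟩ := exists_rank (vars_sub N) h0
  obtain ⟨r1, r1a, r1b⟩ := exists_rank (vars_sub N) h1
  have hprod : ∀ b, ((P.map (List.map (fun f => f ∘ rs N (Nat.sqrt N) b))).map
      (fun fs => fs.length + 1)).prod = Pr := by
    intro b
    rw [hPr, List.map_map]
    congr 1
    apply List.map_congr_left
    intro fs _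
    simp
  rw [hprod] at r0a r1a
  -- the circuit
  obtain ⟨L', c1, c2, c3⟩ := decision (φ := HCMatrix N) K hL
  let fin : List ((Fin N → Bool) → Bool) :=
    (List.range (K + 1)).map (M (HCMatrix N) L) ++ (List.range (K + 1)).map (Q (HCMatrix N) L)
  let G : List Bool → Bool := fun l => decide (∃ k ≤ K, l.getD k false = false ∧
    ∀ j < k, l.getD (K + 1 + j) false = true)
  have hfin : ∀ f ∈ fin, f ∈ Vars N ∨ f ∈ L' := by
    intro f hf
    rcases List.mem_append.mp hf with hf | hf
    · obtain ⟨k, hk, rfl⟩ := List.mem_map.mp hf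
      exact (c3 k (by have := List.mem_range.mp hk; omega)).1
    · obtain ⟨k, hk, rfl⟩ := List.mem_map.mp hf
      exact (c3 k (by have := List.mem_range.mp hk; omega)).2
  have c4 := Circ.any fin G c2 hfin
  have hlenfin : fin.length = 2 * K + 2 := by
    simp only [fin, List.length_append, List.length_map, List.length_range]
    omega
  obtain ⟨n, C, d1, d2, d3, d4⟩ := to_circuit (vars_sub N) c4
  obtain ⟨out, hout⟩ := d4 _ List.mem_cons_self
  have hG : ∀ x, (fun x => G (fin.map fun f => f x)) x = true ↔ List.ofFn x ∈ HalfClique := by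
    intro x
    have e1 := extract (hc_strategy N) hR x
    have e2 : hc N x = true ↔ List.ofFn x ∈ HalfClique := by
      unfold hc; rw [decide_eq_true_eq]
    rw [← e2, e1]
    simp only [G, decide_eq_true_eq]
    have g1 : ∀ k ≤ K, (fin.map fun f => f x).getD k false = M (HCMatrix N) L k x := by
      intro k hk
      simp only [fin, List.map_append, List.map_map]
      rw [List.getD_append _ _ _ _ (by simp; omega), List.getD_eq_getElem _ _ (by simp; omega)]
      simp
    have g2 : ∀ k ≤ K, (fin.map fun f => f x).getD (K + 1 + k) false = Q (HCMatrix N) L k x := by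
      intro k hk
      simp only [fin, List.map_append, List.map_map]
      rw [List.getD_append_right _ _ _ _ (by simp)]
      simp only [List.length_map, List.length_range, Nat.add_sub_cancel_left]
      rw [List.getD_eq_getElem _ _ (by simp; omega)]
      simp
    constructor
    · rintro ⟨k, hk, h2, h3⟩
      refine ⟨k, hk, by rw [← g1 k hk]; exact h2, fun j hj => ?_⟩
      rw [← g2 j (by omega)]
      exact h3 j hj
    · rintro ⟨k, hk, h2, h3⟩
      refine ⟨k, hk, by rw [g1 k hk]; exact h2, fun j hj => ?_⟩
      rw [g2 j (by omega)]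
      exact h3 j hj
  obtain ⟨x, hx1, hx2, -⟩ := half_chain N t ht C out (fun x => by rw [hout]; exact hG x) (by
    have e1 : C.fanins.sum = 2 * K + 2 + 2 * (P.map List.length).sum := by
      rw [d2, List.map_cons, List.sum_cons, hlenfin, List.map_append, List.sum_append,
        List.map_map, List.map_map]
      have : ∀ b, (P.map (List.length ∘ List.map (fun f => f ∘ rs N (Nat.sqrt N) b))).sum =
          (P.map List.length).sum := by
        intro b
        congr 1
        apply List.map_congr_left
        intro fs _
        simp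
      rw [this, this]
      ring
    have e2 : C.size ≤ 1 + (2 * L.length + (K + 1) * (3 * L.length)) := by
      refine d1.trans ?_
      rw [List.length_cons]
      omega
    have e3 : (3 * K + 5) * (L.length + (P.map List.length).sum + 1) =
        (2 * L.length + (K + 1) * (3 * L.length)) + (3 * K + 5) * (P.map List.length).sum +
          (3 * K + 5) := by ring
    have e4 : 2 * (P.map List.length).sum ≤ (3 * K + 5) * (P.map List.length).sum :=
      Nat.mul_le_mul_right _ (by omega)
    omega)
  -- counting
  let cnt : (Fin N → Bool) → ℕ := fun x => fin.countP (fun f => f x)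
  have hcnt : ∀ x, cnt x < 2 * K + 3 := by
    intro x
    have := List.countP_le_length (l := fin) (p := fun f => f x)
    simp only [cnt]
    omega
  let r : (Fin N → Bool) → ℕ := fun x => (r0 x + r1 x) * (2 * K + 3) + cnt x
  have hstep : ∀ i < N / (1600 * t ^ 10) ^ 2, r (x i) < r (x (i + 1)) := by
    intro i hi
    have hle := hx1 i hi
    have hpr := hx2 i hi
    have hle0 : r0 (x i) ≤ r0 (x (i + 1)) := by
      rcases r0b _ _ hle with h | h
      · exact h.le
      · exact h.1.le
    have hle1 : r1 (x i) ≤ r1 (x (i + 1)) := by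
      rcases r1b _ _ hle with h | h
      · exact h.le
      · exact h.1.le
    by_cases hlt : r0 (x i) + r1 (x i) < r0 (x (i + 1)) + r1 (x (i + 1))
    · simp only [r]
      have e1 : (r0 (x i) + r1 (x i) + 1) * (2 * K + 3) ≤
          (r0 (x (i + 1)) + r1 (x (i + 1))) * (2 * K + 3) := Nat.mul_le_mul_right _ hlt
      have e2 := hcnt (x i)
      have e3 : (r0 (x i) + r1 (x i) + 1) * (2 * K + 3) =
        (r0 (x i) + r1 (x i)) * (2 * K + 3) + (2 * K + 3) := by ring
      omega
    · have h2 : r0 (x i) = r0 (x (i + 1)) := by omega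
      have h3 : r1 (x i) = r1 (x (i + 1)) := by omega
      rcases r0b _ _ hle with h | ⟨-, p0, m0⟩
      · omega
      rcases r1b _ _ hle with h | ⟨-, p1, m1⟩
      · omega
      have hmono : ∀ f ∈ fin, f (x i) ≤ f (x (i + 1)) := by
        have hz : ∀ b, ∀ k, ∀ g ∈ (Z (HCMatrix N) L k).map (fun f => f ∘ rs N (Nat.sqrt N) b),
            g (x i) ≤ g (x (i + 1)) := by
          intro b k g hg
          obtain ⟨f, hf, rfl⟩ := List.mem_map.mp hg
          have hfL := level_sub k f (mem_Z.mp hf).1
          cases b
          · exact m0 _ (List.mem_map_of_mem hfL)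
          · exact m1 _ (List.mem_map_of_mem hfL)
        have hall : ∀ gs : List ((Fin N → Bool) → Bool), (∀ g ∈ gs, g (x i) ≤ g (x (i + 1))) →
            (gs.all fun g => g (x i)) ≤ (gs.all fun g => g (x (i + 1))) := by
          intro gs hgs
          by_cases h : (gs.all fun g => g (x i)) = true
          · have : (gs.all fun g => g (x (i + 1))) = true := by
              rw [List.all_eq_true] at h ⊢
              intro g hg
              have := hgs g hg
              rw [h g hg] at this
              exact top_le_iff.mp this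
            rw [h, this]
          · rw [Bool.not_eq_true] at h
            rw [h]
            exact Bool.false_le _
        intro f hf
        rcases List.mem_append.mp hf with hf | hf
        · obtain ⟨k, -, rfl⟩ := List.mem_map.mp hf
          exact hall _ (hz true k)
        · obtain ⟨k, -, rfl⟩ := List.mem_map.mp hf
          apply hall
          intro g hg
          rcases List.mem_append.mp hg with hg | hg
          · exact hz false k g hg
          · exact hz true k g hg
      have hne : ∃ f ∈ fin, f (x i) ≠ f (x (i + 1)) := by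
        by_contra hcon
        push Not at hcon
        apply hpr
        rw [d3, d3]
        apply List.map_congr_left
        intro p hp
        rw [List.flatten_cons, List.flatten_append] at hp
        rcases List.mem_append.mp hp with hp | hp'
        swap
        · rcases List.mem_append.mp hp' with hp | hp
          · exact p1 p hp
          · exact p0 p hp
        · exact hcon p hp
      have := countP_lt_of fin (fun f => f (x i)) (fun f => f (x (i + 1))) hmono hne
      simp only [r, cnt]
      rw [h2, h3]
      omega
  have hr : ∀ i ≤ N / (1600 * t ^ 10) ^ 2, i ≤ r (x i) := by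
    intro i
    induction i with
    | zero => intro _; exact Nat.zero_le _
    | succ i ih =>
      intro hi
      have e1 := ih (by omega)
      have e2 := hstep i (by omega)
      omega
  have e1 := hr _ le_rfl
  have e2 := hcnt (x (N / (1600 * t ^ 10) ^ 2))
  have e3 := r0a (x (N / (1600 * t ^ 10) ^ 2))
  have e4 := r1a (x (N / (1600 * t ^ 10) ^ 2))
  have e5 : (r0 (x (N / (1600 * t ^ 10) ^ 2)) + r1 (x (N / (1600 * t ^ 10) ^ 2)) + 1) *
      (2 * K + 3) ≤ (2 * Pr) * (2 * K + 3) := Nat.mul_le_mul_right _ (by omega)
  have e6 : (r0 (x (N / (1600 * t ^ 10) ^ 2)) + r1 (x (N / (1600 * t ^ 10) ^ 2)) + 1) *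
      (2 * K + 3) = (r0 (x (N / (1600 * t ^ 10) ^ 2)) + r1 (x (N / (1600 * t ^ 10) ^ 2))) *
      (2 * K + 3) + (2 * K + 3) := by ring
  have e7 : 2 * (2 * K + 3) * Pr = (2 * Pr) * (2 * K + 3) := by ring
  rw [e7]
  simp only [r] at e1
  omega

end Pool.Agent.H694R2.QM
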