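import Pool.Agent.H694R2.QM.Upper

/-! Refutations with monotone lines and `N + 1` rounds from circuits. -/

namespace Pool.Agent.H694R2.QM

open Pool.Agent.H520R2 Pool.Agent.H520R2.NM Pool.Agent.H520R2.HC

/-- the list of the variables -/
def vl (N : ℕ) : List ((Fin N → Bool) → Bool) := List.ofFn (fun (i : Fin N) (x : Fin N → Bool) => x i)

/-- threshold functions -/
def TT (N k : ℕ) : (Fin N → Bool) → Bool := thr (vl N) k

theorem TT_iff {N k : ℕ} (x : Fin N → Bool) : TT N k x = true ↔ k ≤ wt x := by
  unfold TT thr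
  rw [decide_eq_true_eq]
  rfl

theorem slices (N : ℕ) {P : List (List ((Fin N → Bool) → Bool))}
    {L : List ((Fin N → Bool) → Bool)} (hL : Circ (Vars N) P L) (hP : ∀ fs ∈ P, fs.length ≤ 2)
    {h : (Fin N → Bool) → Bool} (hh : h ∈ L) {L0 : List ((Fin N → Bool) → Bool)}
    (h0 : MProg (Vars N) L0)
    (hthr : ∀ i : Fin N, ∀ b ≤ N + 1, Av (Vars N) L0 (thr (oth i) b)) :
    ∀ k ≤ N + 1, ∃ (L' : List ((Fin N → Bool) → Bool)) (p m : ℕ → (Fin N → Bool) → Bool),
      MProg (Vars N) (L' ++ L0) ∧ L'.length ≤ k * (12 * L.length) ∧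
      ∀ j < k, Av (Vars N) (L' ++ L0) (p j) ∧ Av (Vars N) (L' ++ L0) (m j) ∧
        ∀ x, wt x = j → p j x = h x ∧ m j x = !h x := by
  intro k
  induction k with
  | zero =>
    intro _
    exact ⟨[], fun _ _ => false, fun _ _ => false, by simpa using h0, by simp, by simp⟩
  | succ k ih =>
    intro hk
    obtain ⟨L1, p, m, h1, h2, h3⟩ := ih (by omega)
    obtain ⟨L2, h4, h5, h6⟩ := two_rail (B' := Vars N) {x | wt x = k}
      (fun b => Or.inl ⟨b, rfl⟩) h1 (by
        rintro f (⟨b, rfl⟩ | ⟨i, rfl⟩)
        · exact ⟨_, _, Or.inl (Or.inl ⟨b, rfl⟩), Or.inl (Or.inl ⟨!b, rfl⟩),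
            fun x _ => ⟨rfl, rfl⟩⟩
        · refine ⟨_, _, Or.inl (Or.inr ⟨i, rfl⟩), (hthr i k (by omega)).mono L1,
            fun x hx => ⟨rfl, ?_⟩⟩
          have e1 : wt x = k := hx
          have e2 := cnt_oth i x
          show decide (k ≤ cnt (oth i) x) = !(x i)
          cases hxi : x i
          · rw [hxi] at e2
            simp only [Bool.toNat_false, add_zero] at e2
            rw [Bool.not_false, decide_eq_true_eq]
            omega
          · rw [hxi] at e2
            simp only [Bool.toNat_true] at e2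
            rw [Bool.not_true, decide_eq_false_iff_not]
            omega) hL hP
    obtain ⟨p', m', h7, h8, h9⟩ := h6 h (Or.inr hh)
    refine ⟨L2 ++ L1, fun j => if j = k then p' else p j, fun j => if j = k then m' else m j,
      by rw [List.append_assoc]; exact h4, ?_, ?_⟩
    · rw [List.length_append]
      have : (k + 1) * (12 * L.length) = k * (12 * L.length) + 12 * L.length := by ring
      omega
    · intro j hj
      rw [List.append_assoc]
      by_cases hjk : j = k
      · subst hjk
        simp only [if_true]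
        exact ⟨h7, h8, fun x hx => h9 x hx⟩
      · simp only [hjk, if_false]
        obtain ⟨q1, q2, q3⟩ := h3 j (by omega)
        exact ⟨q1.mono L2, q2.mono L2, q3⟩

section lines

variable {N q : ℕ} (p m : ℕ → (Fin N → Bool) → Bool)

/-- the line `|x| ≥ k` -/
def lT (N q k : ℕ) : Asg N q → Bool := fun A => TT N k A.x

/-- if `|x| = k` then `h x` -/
def lF (q k : ℕ) : Asg N q → Bool := fun A => TT N (k + 1) A.x || p k A.x

/-- if `|x| = k` then not `h x` -/
def lG (q k : ℕ) : Asg N q → Bool := fun A => TT N (k + 1) A.x || m k A.x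

/-- `z` or `lF` -/
def lB (q k : ℕ) : Asg N q → Bool := fun A => (A.z == true) || (TT N (k + 1) A.x || p k A.x)

/-- not `z` or `lG` -/
def lA (q k : ℕ) : Asg N q → Bool := fun A => (A.z == false) || (TT N (k + 1) A.x || m k A.x)

theorem lines_prog {L0 : List (Asg N q → Bool)} (h0 : MProg (Lits N q) L0)
    (hT : ∀ k ≤ N + 1, Av (Lits N q) L0 (lT N q k))
    (hp : ∀ k ≤ N, Av (Lits N q) L0 (fun A => p k A.x))
    (hm : ∀ k ≤ N, Av (Lits N q) L0 (fun A => m k A.x)) :
    ∀ k ≤ N + 1, ∃ L', MProg (Lits N q) (L' ++ L0) ∧ L'.length = 5 * k ∧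
      ∀ j < k, lT N q j ∈ L' ∧ lF p q j ∈ L' ∧ lG m q j ∈ L' ∧ lB p q j ∈ L' ∧ lA m q j ∈ L' := by
  intro k
  induction k with
  | zero =>
    intro _
    exact ⟨[], by simpa using h0, rfl, by simp⟩
  | succ k ih =>
    intro hk
    obtain ⟨L', h1, h2, h3⟩ := ih (by omega)
    have t := (hT k (by omega)).mono L'
    have t1 := (hT (k + 1) (by omega)).mono L'
    have pp := (hp k (by omega)).mono L'
    have mm := (hm k (by omega)).mono L'
    have c1 := MProg.and h1 t t
    have c2 := MProg.or c1 (t1.cons _) (pp.cons _)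
    have c3 := MProg.or c2 ((t1.cons _).cons _) ((mm.cons _).cons _)
    have c4 := MProg.or (f := fun A => A.z == true) (g := lF p q k) c3
      (Or.inl (Or.inr (Or.inr (Or.inl ⟨true, rfl⟩)))) (Or.inr (by
        apply List.mem_cons_of_mem
        exact List.mem_cons_self))
    have c5 := MProg.or (f := fun A => A.z == false) (g := lG m q k) c4
      (Or.inl (Or.inr (Or.inr (Or.inl ⟨false, rfl⟩)))) (Or.inr (by
        apply List.mem_cons_of_mem
        exact List.mem_cons_self))
    refine ⟨_ :: _ :: _ :: _ :: _ :: L', c5, ?_, ?_⟩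
    · simp only [List.length_cons]; omega
    · intro j hj
      rcases Nat.lt_succ_iff_lt_or_eq.mp hj with h | rfl
      · obtain ⟨q1, q2, q3, q4, q5⟩ := h3 j h
        refine ⟨?_, ?_, ?_, ?_, ?_⟩ <;> (repeat apply List.mem_cons_of_mem) <;> assumption
      · have e1 : lT N q j = fun A => lT N q j A && lT N q j A := by
          funext A; rw [Bool.and_self]
        refine ⟨?_, ?_, ?_, ?_, ?_⟩
        · apply List.mem_cons_of_mem
          apply List.mem_cons_of_mem
          apply List.mem_cons_of_mem
          apply List.mem_cons_of_mem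
          exact List.mem_cons.mpr (Or.inl e1)
        · apply List.mem_cons_of_mem
          apply List.mem_cons_of_mem
          apply List.mem_cons_of_mem
          exact List.mem_cons_self
        · apply List.mem_cons_of_mem
          apply List.mem_cons_of_mem
          exact List.mem_cons_self
        · apply List.mem_cons_of_mem
          exact List.mem_cons_self
        · exact List.mem_cons_self

theorem lines_refute {φ : Asg N q → Prop} {h : (Fin N → Bool) → Bool}
    (hφ : ∀ x z y, (∀ v, φ ⟨x, z, y, v⟩) → z = !h x) {L : List (Asg N q → Bool)}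
    (hsem : ∀ k ≤ N, ∀ x, wt x = k → p k x = h x ∧ m k x = !h x)
    (hmem : ∀ j ≤ N, lT N q j ∈ L ∧ lF p q j ∈ L ∧ lG m q j ∈ L ∧ lB p q j ∈ L ∧ lA m q j ∈ L)
    (hlast : lT N q (N + 1) ∈ L) : Refutes φ L (N + 1) := by
  -- the lines of level k
  have hAB : ∀ k ≤ N, lT N q k ∈ Level φ L k → lB p q k ∈ Level φ L k ∧ lA m q k ∈ Level φ L k := by
    intro k hk hT
    obtain ⟨-, -, -, h4, h5⟩ := hmem k hk
    constructor
    · refine level_follows k _ h4 (fun x z y hv v => ?_)
      have hz := hφ x z y (fun v => (hv v).1)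
      have ht : TT N k x = true := (hv v).2 _ hT
      rw [TT_iff] at ht
      show ((z == true) || (TT N (k + 1) x || p k x)) = true
      cases hzz : z
      · rw [hzz] at hz
        have hx : h x = true := by
          cases hx : h x
          · rw [hx] at hz; simp at hz
          · rfl
        by_cases hwt : wt x = k
        · rw [(hsem k hk x hwt).1, hx]; simp
        · have : TT N (k + 1) x = true := by rw [TT_iff]; omega
          rw [this]; simp
      · simp
    · refine level_follows k _ h5 (fun x z y hv v => ?_)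
      have hz := hφ x z y (fun v => (hv v).1)
      have ht : TT N k x = true := (hv v).2 _ hT
      rw [TT_iff] at ht
      show ((z == false) || (TT N (k + 1) x || m k x)) = true
      cases hzz : z
      · simp
      · rw [hzz] at hz
        have hx : h x = false := by
          cases hx : h x
          · rfl
          · rw [hx] at hz; simp at hz
        by_cases hwt : wt x = k
        · rw [(hsem k hk x hwt).2, hx]; simp
        · have : TT N (k + 1) x = true := by rw [TT_iff]; omega
          rw [this]; simp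
  have hT : ∀ k ≤ N + 1, lT N q k ∈ Level φ L k := by
    intro k
    induction k with
    | zero =>
      intro _
      refine ⟨(hmem 0 (by omega)).1, fun x z y _ v => ?_⟩
      show TT N 0 x = true
      rw [TT_iff]
      omega
    | succ k ih =>
      intro hk
      have hTk := ih (by omega)
      obtain ⟨hB, hA⟩ := hAB k (by omega) hTk
      have hTmem : lT N q (k + 1) ∈ L := by
        rcases Nat.lt_or_ge k N with hlt | hge
        · exact (hmem (k + 1) (by omega)).1
        · have : k = N := by omega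
          rw [this]; exact hlast
      obtain ⟨-, hF, hG, -, -⟩ := hmem k (by omega)
      refine ⟨hTmem, fun x z y hv v => ?_⟩
      have t1 : TT N k x = true := (hv v).2 _ (Or.inl hTk)
      have t2 : (TT N (k + 1) x || p k x) = true := (hv v).2 (lF p q k)
        (Or.inr ⟨hF, _, hB, fun _ _ _ _ _ _ => rfl, false, fun x z y v => by simp [lF, lB]⟩)
      have t3 : (TT N (k + 1) x || m k x) = true := (hv v).2 (lG m q k)
        (Or.inr ⟨hG, _, hA, fun _ _ _ _ _ _ => rfl, true, fun x z y v => by simp [lG, lA]⟩)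
      show TT N (k + 1) x = true
      by_contra hne
      rw [Bool.not_eq_true] at hne
      rw [hne, Bool.false_or] at t2 t3
      rw [TT_iff] at t1
      have hwt : wt x = k := by
        have : ¬ (k + 1 ≤ wt x) := by
          rw [← TT_iff, hne]; simp
        omega
      obtain ⟨s1, s2⟩ := hsem k (by omega) x hwt
      rw [s1] at t2
      rw [s2, t2] at t3
      exact absurd t3 (by simp)
  have hfin := hT (N + 1) le_rfl
  have : lT N q (N + 1) = fun _ => false := by
    funext A
    show TT N (N + 1) A.x = false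
    rw [← Bool.not_eq_true, TT_iff]
    have := wt_le A.x
    omega
  rw [this] at hfin
  exact hfin

end lines

theorem hcMatrix_z (N : ℕ) (x : Fin N → Bool) (z : Bool) (y : Fin (Nat.sqrt N) → Bool)
    (h : ∀ v, HCMatrix N ⟨x, z, y, v⟩) : z = !hc N x := by
  classical
  cases hz : z
  · have := (h (fun _ => false)).1 hz
    have h1 : hc N x = true := by
      unfold hc
      rw [decide_eq_true_eq, ← isHalf_iff]
      exact ⟨y, this⟩
    rw [h1]; rfl
  · have h1 : hc N x = false := by
      unfold hc
      rw [decide_eq_false_iff_not, ← isHalf_iff]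
      rintro ⟨S, hS⟩
      exact (h S).2 hz hS
    rw [h1]; rfl

/-- Refutations from circuits. -/
theorem refutation_of_circuit (N : ℕ) (P : List (List ((Fin N → Bool) → Bool)))
    (L : List ((Fin N → Bool) → Bool)) (hL : Circ (Vars N) P L) (hP : ∀ fs ∈ P, fs.length ≤ 2)
    (hh : hc N ∈ L) :
    ∃ L', Circ (Lits N (Nat.sqrt N)) [] L' ∧ Refutes (HCMatrix N) L' (N + 1) ∧
      L'.length ≤ 12 * (N + 1) * L.length + 8 * (N + 1) ^ 3 := by
  -- thresholds
  obtain ⟨Lt, t1, t2, t3⟩ := thrs_prog (L := []) (B := Vars N) MProg.nil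
    (Or.inl ⟨true, rfl⟩) (Or.inl ⟨false, rfl⟩) (N + 1) N
    (vl N :: (List.finRange N).map oth) (by
      intro gs hgs g hg
      left
      right
      rcases List.mem_cons.mp hgs with rfl | hgs
      · unfold vl at hg
        rw [List.mem_ofFn] at hg
        obtain ⟨i, rfl⟩ := hg
        exact ⟨i, rfl⟩
      · obtain ⟨i, -, rfl⟩ := List.mem_map.mp hgs
        obtain ⟨j, -, rfl⟩ := List.mem_map.mp hg
        exact ⟨j, rfl⟩) (by
      intro gs hgs
      rcases List.mem_cons.mp hgs with rfl | hgs
      · unfold vl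
        rw [List.length_ofFn]
      · obtain ⟨i, -, rfl⟩ := List.mem_map.mp hgs
        unfold oth
        rw [List.length_map]
        refine (List.length_filter_le _ _).trans ?_
        rw [List.length_finRange])
  rw [List.append_nil] at t1 t3
  obtain ⟨L1, p, m, s1, s2, s3⟩ := slices N hL hP hh t1 (fun i b hb =>
    t3 _ (List.mem_cons_of_mem _ (List.mem_map_of_mem (List.mem_finRange i))) b hb) (N + 1) le_rfl
  -- lift
  have hlift := s1.comp (B' := Lits N (Nat.sqrt N)) (fun A : Asg N (Nat.sqrt N) => A.x) (by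
    rintro f (⟨b, rfl⟩ | ⟨i, rfl⟩)
    · exact Or.inl ⟨b, rfl⟩
    · exact Or.inr (Or.inl ⟨i, rfl⟩))
  have key : ∀ f, Av (Vars N) (L1 ++ Lt) f → Av (Lits N (Nat.sqrt N))
      ((L1 ++ Lt).map (fun f => f ∘ (fun A : Asg N (Nat.sqrt N) => A.x))) (fun A => f A.x) := by
    rintro f ((⟨b, rfl⟩ | ⟨i, rfl⟩) | hf)
    · exact Or.inl (Or.inl ⟨b, rfl⟩)
    · exact Or.inl (Or.inr (Or.inl ⟨i, rfl⟩))
    · exact Or.inr (List.mem_map_of_mem (f := fun f => f ∘ (fun A : Asg N (Nat.sqrt N) => A.x)) hf)
  have hTk : ∀ k ≤ N + 1, Av (Lits N (Nat.sqrt N))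
      ((L1 ++ Lt).map (fun f => f ∘ (fun A : Asg N (Nat.sqrt N) => A.x)))
      (lT N (Nat.sqrt N) k) := fun k hk =>
    key _ ((t3 _ List.mem_cons_self k hk).mono L1)
  obtain ⟨L2, l1, l2, l3⟩ := lines_prog p m hlift hTk
    (fun k hk => key _ (s3 k (by omega)).1) (fun k hk => key _ (s3 k (by omega)).2.1)
    (N + 1) le_rfl
  have l4 := MProg.and l1 ((hTk (N + 1) le_rfl).mono L2) ((hTk (N + 1) le_rfl).mono L2)
  refine ⟨_, Circ.of_mprog l4, ?_, ?_⟩
  · apply lines_refute p m (hcMatrix_z N) (fun k hk x hx => (s3 k (by omega)).2.2 x hx)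
    · intro j hj
      obtain ⟨q1, q2, q3, q4, q5⟩ := l3 j (by omega)
      refine ⟨?_, ?_, ?_, ?_, ?_⟩ <;> apply List.mem_cons_of_mem <;>
        apply List.mem_append_left <;> assumption
    · have e1 : lT N (Nat.sqrt N) (N + 1) =
          fun A => lT N (Nat.sqrt N) (N + 1) A && lT N (Nat.sqrt N) (N + 1) A := by
        funext A; rw [Bool.and_self]
      exact List.mem_cons.mpr (Or.inl e1)
  · simp only [List.length_cons, List.length_append, List.length_map, List.length_finRange] at t2 ⊢
    have e1 : (N + 1) * (2 * (N + 1) * N) + 5 * (N + 1) + 1 ≤ 8 * (N + 1) ^ 3 := by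
      have h1 : 1 ≤ N + 1 := by omega
      have h2 : (N + 1) ^ 3 = (N + 1) * (N + 1) * (N + 1) := by ring
      have h3 : (N + 1) * (2 * (N + 1) * N) ≤ 2 * ((N + 1) * (N + 1) * (N + 1)) := by
        have : N ≤ N + 1 := by omega
        calc (N + 1) * (2 * (N + 1) * N) = 2 * ((N + 1) * (N + 1) * N) := by ring
          _ ≤ 2 * ((N + 1) * (N + 1) * (N + 1)) := by gcongr
      have h4 : (N + 1) ≤ (N + 1) * (N + 1) * (N + 1) := by
        calc N + 1 = 1 * 1 * (N + 1) := by ring
          _ ≤ (N + 1) * (N + 1) * (N + 1) := by gcongr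
      rw [h2]
      omega
    have e2 : (N + 1) * (12 * L.length) = 12 * (N + 1) * L.length := by ring
    omega

end Pool.Agent.H694R2.QM
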