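import Pool.Agent.H694R2.QM.Lower

/-! Refutations with `N + 1` rounds from circuits, and circuits from refutations. -/

namespace Pool.Agent.H694R2.QM

open Pool.Agent.H520R2 Pool.Agent.H520R2.NM Pool.Agent.H520R2.HC

/-! ### circuits from refutations -/

section decide

variable {X : Type} (Mk Qk : ℕ → X → Bool)

/-- `R k` : all `Q j`, `j < k` -/
def RR : ℕ → X → Bool
  | 0 => fun _ => true
  | k + 1 => fun x => RR k x && Qk k x

/-- the decision list up to `k` -/
def OO : ℕ → X → Bool
  | 0 => fun _ => false
  | k + 1 => fun x => OO k x || ((!Mk k x) && RR Qk k x)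

theorem RR_iff (k : ℕ) (x : X) : RR Qk k x = true ↔ ∀ j < k, Qk j x = true := by
  induction k with
  | zero => simp [RR]
  | succ k ih =>
    simp only [RR, Bool.and_eq_true, ih]
    constructor
    · rintro ⟨h1, h2⟩ j hj
      rcases Nat.lt_succ_iff_lt_or_eq.mp hj with h | rfl
      · exact h1 j h
      · exact h2
    · intro h
      exact ⟨fun j hj => h j (by omega), h k (by omega)⟩

theorem OO_iff (k : ℕ) (x : X) :
    OO Mk Qk k x = true ↔ ∃ i < k, Mk i x = false ∧ ∀ j < i, Qk j x = true := by
  induction k with
  | zero => simp [OO]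
  | succ k ih =>
    simp only [OO, Bool.or_eq_true, Bool.and_eq_true, ih, RR_iff, Bool.not_eq_true']
    constructor
    · rintro (⟨i, hi, h⟩ | ⟨h1, h2⟩)
      · exact ⟨i, by omega, h⟩
      · exact ⟨k, by omega, h1, h2⟩
    · rintro ⟨i, hi, h1, h2⟩
      rcases Nat.lt_succ_iff_lt_or_eq.mp hi with h | rfl
      · exact Or.inl ⟨i, h, h1, h2⟩
      · exact Or.inr ⟨h1, h2⟩

theorem oo_prog {B : Set (X → Bool)} (hc0 : ∀ b, (fun _ => b) ∈ B) {P : List (List (X → Bool))}
    {L : List (X → Bool)} (hL : Circ B P L) (K : ℕ)
    (hM : ∀ k ≤ K, Av B L (Mk k)) (hQ : ∀ k ≤ K, Av B L (Qk k)) :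
    ∀ k ≤ K + 1, ∃ P' L', Circ B (P' ++ P) (L' ++ L) ∧ L'.length = 4 * k ∧
      (∀ fs ∈ P', fs.length = 1) ∧ P'.length = k ∧ (0 < k → OO Mk Qk k ∈ L') ∧
      Av B (L' ++ L) (OO Mk Qk k) ∧ Av B (L' ++ L) (RR Qk k) := by
  intro k
  induction k with
  | zero =>
    intro _
    exact ⟨[], [], by simpa using hL, rfl, by simp, rfl, by simp, Or.inl (hc0 false),
      Or.inl (hc0 true)⟩
  | succ k ih =>
    intro hk
    obtain ⟨P', L', h1, h2, h3, h3', -, h4, h5⟩ := ih (by omega)
    have m := (hM k (by omega)).mono L'
    have q := (hQ k (by omega)).mono L'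
    have c1 := Circ.any [Mk k] (fun l => !(l.getD 0 false)) h1 (by
      intro f hf
      rw [List.mem_singleton] at hf
      subst hf
      exact m)
    have c2 := Circ.and c1 (f := fun x => !Mk k x) (g := RR Qk k) (Or.inr (by simp)) (h5.cons _)
    have c3 := Circ.and c2 (f := RR Qk k) (g := Qk k) ((h5.cons _).cons _) ((q.cons _).cons _)
    have c4 := Circ.or c3 (f := OO Mk Qk k) (g := fun x => (!Mk k x) && RR Qk k x)
      (((h4.cons _).cons _).cons _) (Or.inr (List.mem_cons_of_mem _ List.mem_cons_self))
    refine ⟨[Mk k] :: P', _ :: _ :: _ :: _ :: L', c4, ?_, ?_, ?_, ?_, ?_, ?_⟩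
    · simp only [List.length_cons]; omega
    · intro fs hfs
      rcases List.mem_cons.mp hfs with rfl | hfs
      · rfl
      · exact h3 fs hfs
    · simp only [List.length_cons]; omega
    · intro _
      exact List.mem_cons_self
    · exact Or.inr List.mem_cons_self
    · exact Or.inr (List.mem_cons_of_mem _ List.mem_cons_self)

end decide

/-- Circuits from refutations. -/
theorem circuit_of_refutation (N K : ℕ)
    (P : List (List (Asg N (Nat.sqrt N) → Bool))) (L : List (Asg N (Nat.sqrt N) → Bool))
    (hL : Circ (Lits N (Nat.sqrt N)) P L) (hR : Refutes (HCMatrix N) L K)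
    (hP : ∀ fs ∈ P, fs.length ≤ 2) :
    ∃ P' L', Circ (Vars N) P' L' ∧ (∀ fs ∈ P', fs.length ≤ 2) ∧ hc N ∈ L' ∧
      L'.length ≤ (3 * K + 5) * L.length + 4 * (K + 1) := by
  obtain ⟨L', c1, c2, c3⟩ := decision (φ := HCMatrix N) K hL
  obtain ⟨P'', L'', d1, d2, d3, -, d4, -, -⟩ := oo_prog (M (HCMatrix N) L) (Q (HCMatrix N) L)
    (fun b => Or.inl ⟨b, rfl⟩) c2 K (fun k hk => (c3 k hk).1) (fun k hk => (c3 k hk).2) (K + 1)
    le_rfl
  refine ⟨_, _, d1, ?_, ?_, ?_⟩
  · intro fs hfs
    rcases List.mem_append.mp hfs with hfs | hfs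
    · rw [d3 fs hfs]; omega
    · rcases List.mem_append.mp hfs with hfs | hfs
      · obtain ⟨fs', h, rfl⟩ := List.mem_map.mp hfs
        rw [List.length_map]
        exact hP fs' h
      · obtain ⟨fs', h, rfl⟩ := List.mem_map.mp hfs
        rw [List.length_map]
        exact hP fs' h
  · have : hc N = OO (M (HCMatrix N) L) (Q (HCMatrix N) L) (K + 1) := by
      funext x
      rw [Bool.eq_iff_iff, OO_iff, extract (hc_strategy N) hR x]
      constructor
      · rintro ⟨k, hk, h⟩; exact ⟨k, by omega, h⟩
      · rintro ⟨k, hk, h⟩; exact ⟨k, by omega, h⟩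
    rw [this]
    exact List.mem_append_left _ (d4 (by omega))
  · rw [List.length_append, d2]
    have : (3 * K + 5) * L.length = 2 * L.length + (K + 1) * (3 * L.length) := by ring
    omega

/-! ### slices -/

/-- the number of ones -/
def wt {N : ℕ} (x : Fin N → Bool) : ℕ := cnt (List.ofFn (fun (i : Fin N) (x : Fin N → Bool) => x i)) x

/-- the variables except the `i`-th -/
def oth {N : ℕ} (i : Fin N) : List ((Fin N → Bool) → Bool) :=
  ((List.finRange N).filter (fun j => j ≠ i)).map (fun j x => x j)

theorem wt_eq {N : ℕ} (x : Fin N → Bool) : wt x = (List.finRange N).countP (fun j => x j) := by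
  unfold wt cnt
  rw [List.ofFn_eq_map, List.countP_map]
  rfl

theorem wt_le {N : ℕ} (x : Fin N → Bool) : wt x ≤ N := by
  rw [wt_eq]
  refine List.countP_le_length.trans ?_
  rw [List.length_finRange]

theorem cnt_oth {N : ℕ} (i : Fin N) (x : Fin N → Bool) :
    wt x = cnt (oth i) x + (x i).toNat := by
  unfold oth cnt
  rw [wt_eq, List.countP_map, List.countP_filter]
  have h1 : (List.finRange N).countP (fun j => x j) =
      (List.finRange N).countP (fun j => x j && decide (j ≠ i)) +
        (List.finRange N).countP (fun j => x j && decide (j = i)) := by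
    induction (List.finRange N) with
    | nil => rfl
    | cons a l ih =>
      simp only [List.countP_cons, ih]
      by_cases ha : a = i
      · subst ha
        cases x a <;> simp <;> omega
      · cases x a <;> simp [ha] <;> omega
  rw [h1]
  congr 1
  cases hx : x i
  · rw [List.countP_eq_zero.mpr]
    · rfl
    · intro j _
      by_cases hj : j = i
      · subst hj; simp [hx]
      · simp [hj]
  · have h2 : (List.finRange N).countP (fun j => x j && decide (j = i)) =
        (List.finRange N).count i := by
      rw [List.count]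
      apply List.countP_congr
      intro j _
      by_cases hj : j = i
      · subst hj; simp [hx]
      · simp [hj]
    rw [h2, List.count_eq_one_of_mem (List.nodup_finRange N) (List.mem_finRange i)]
    rfl

/-- thresholds of many lists -/
theorem thrs_prog {X : Type} {B : Set (X → Bool)} {L : List (X → Bool)} (hL : MProg B L)
    (htrue : (fun _ => true) ∈ B) (hfalse : (fun _ => false) ∈ B) (c m : ℕ)
    (gss : List (List (X → Bool))) (hg : ∀ gs ∈ gss, ∀ g ∈ gs, Av B L g)
    (hm : ∀ gs ∈ gss, gs.length ≤ m) :
    ∃ L', MProg B (L' ++ L) ∧ L'.length ≤ gss.length * (2 * c * m) ∧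
      ∀ gs ∈ gss, ∀ b ≤ c, Av B (L' ++ L) (thr gs b) := by
  induction gss with
  | nil => exact ⟨[], by simpa using hL, by simp, by simp⟩
  | cons gs gss ih =>
    obtain ⟨L1, h1, h2, h3⟩ := ih (fun gs h => hg gs (List.mem_cons_of_mem _ h))
      (fun gs h => hm gs (List.mem_cons_of_mem _ h))
    obtain ⟨L2, h4, h5, h6⟩ := thr_prog h1 gs (fun g h => (hg gs List.mem_cons_self g h).mono L1)
      htrue hfalse c
    refine ⟨L2 ++ L1, by rw [List.append_assoc]; exact h4, ?_, ?_⟩
    · have e1 : 2 * c * gs.length ≤ 2 * c * m := Nat.mul_le_mul_left _ (hm gs List.mem_cons_self)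
      have e2 : (gss.length + 1) * (2 * c * m) = gss.length * (2 * c * m) + 2 * c * m := by ring
      simp only [List.length_append, List.length_cons]
      rw [e2]
      omega
    · intro gs' hgs' b hb
      rw [List.append_assoc]
      rcases List.mem_cons.mp hgs' with rfl | hgs'
      · exact h6 b hb
      · exact (h3 gs' hgs' b hb).mono L2

/-- `f` or its companion -/
def sel {X : Type} (f g : X → Bool) (b : Bool) : X → Bool := if b then f else g

/-- A monotone program computing both polarities of all gates on a set `D`. -/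
theorem two_rail {X : Type} {B B' : Set (X → Bool)} (D : Set X)
    (hB'c : ∀ b, (fun _ => b) ∈ B') {L0 : List (X → Bool)} (h0 : MProg B' L0)
    (hvar : ∀ f ∈ B, ∃ p m, Av B' L0 p ∧ Av B' L0 m ∧ ∀ x ∈ D, p x = f x ∧ m x = !f x)
    {P : List (List (X → Bool))} {L : List (X → Bool)} (hL : Circ B P L)
    (hP : ∀ fs ∈ P, fs.length ≤ 2) :
    ∃ L', MProg B' (L' ++ L0) ∧ L'.length ≤ 12 * L.length ∧
      ∀ f, (f ∈ B ∨ f ∈ L) → ∃ p m, Av B' (L' ++ L0) p ∧ Av B' (L' ++ L0) m ∧
        ∀ x ∈ D, p x = f x ∧ m x = !f x := by
  induction hL with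
  | nil =>
    refine ⟨[], by simpa using h0, by simp, ?_⟩
    rintro f (hf | hf)
    · simpa using hvar f hf
    · simp at hf
  | @and P L f g _ hf hg ih =>
    obtain ⟨L', h1, h2, h3⟩ := ih hP
    obtain ⟨pf, mf, a1, a2, a3⟩ := h3 f hf
    obtain ⟨pg, mg, b1, b2, b3⟩ := h3 g hg
    have c1 := MProg.and h1 a1 b1
    have c2 := MProg.or c1 (a2.cons _) (b2.cons _)
    refine ⟨_ :: _ :: L', c2, by simp only [List.length_cons]; omega, ?_⟩
    intro h hh
    by_cases hold : h ∈ B ∨ h ∈ L
    · obtain ⟨p, m, e1, e2, e3⟩ := h3 h hold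
      exact ⟨p, m, (e1.cons _).cons _, (e2.cons _).cons _, e3⟩
    · have hh' : h = fun x => f x && g x := by
        rcases hh with hh | hh
        · exact absurd (Or.inl hh) hold
        · rcases List.mem_cons.mp hh with hh | hh
          · exact hh
          · exact absurd (Or.inr hh) hold
      subst hh'
      refine ⟨_, _, Or.inr (List.mem_cons_of_mem _ List.mem_cons_self),
        Or.inr List.mem_cons_self, ?_⟩
      intro x hx
      simp only
      rw [(a3 x hx).1, (a3 x hx).2, (b3 x hx).1, (b3 x hx).2]
      cases f x <;> cases g x <;> simp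
  | @or P L f g _ hf hg ih =>
    obtain ⟨L', h1, h2, h3⟩ := ih hP
    obtain ⟨pf, mf, a1, a2, a3⟩ := h3 f hf
    obtain ⟨pg, mg, b1, b2, b3⟩ := h3 g hg
    have c1 := MProg.or h1 a1 b1
    have c2 := MProg.and c1 (a2.cons _) (b2.cons _)
    refine ⟨_ :: _ :: L', c2, by simp only [List.length_cons]; omega, ?_⟩
    intro h hh
    by_cases hold : h ∈ B ∨ h ∈ L
    · obtain ⟨p, m, e1, e2, e3⟩ := h3 h hold
      exact ⟨p, m, (e1.cons _).cons _, (e2.cons _).cons _, e3⟩
    · have hh' : h = fun x => f x || g x := by
        rcases hh with hh | hh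
        · exact absurd (Or.inl hh) hold
        · rcases List.mem_cons.mp hh with hh | hh
          · exact hh
          · exact absurd (Or.inr hh) hold
      subst hh'
      refine ⟨_, _, Or.inr (List.mem_cons_of_mem _ List.mem_cons_self),
        Or.inr List.mem_cons_self, ?_⟩
      intro x hx
      simp only
      rw [(a3 x hx).1, (a3 x hx).2, (b3 x hx).1, (b3 x hx).2]
      cases f x <;> cases g x <;> simp
  | @any P L fs G _ hfs ih =>
    obtain ⟨L', h1, h2, h3⟩ := ih (fun fs h => hP fs (List.mem_cons_of_mem _ h))
    have hlen := hP fs List.mem_cons_self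
    -- it suffices to find the two functions for the new gate
    suffices hs : ∃ L'', MProg B' (L'' ++ (L' ++ L0)) ∧ L''.length ≤ 12 ∧
        ∃ p m, Av B' (L'' ++ (L' ++ L0)) p ∧ Av B' (L'' ++ (L' ++ L0)) m ∧
          ∀ x ∈ D, p x = G (fs.map fun f => f x) ∧ m x = !G (fs.map fun f => f x) by
      obtain ⟨L'', c1, c2, p, m, c3, c4, c5⟩ := hs
      refine ⟨L'' ++ L', by rw [List.append_assoc]; exact c1, by
        simp only [List.length_append, List.length_cons]; omega, ?_⟩
      intro h hh
      rw [List.append_assoc]
      by_cases hold : h ∈ B ∨ h ∈ L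
      · obtain ⟨p, m, e1, e2, e3⟩ := h3 h hold
        exact ⟨p, m, e1.mono L'', e2.mono L'', e3⟩
      · have hh' : h = fun x => G (fs.map fun f => f x) := by
          rcases hh with hh | hh
          · exact absurd (Or.inl hh) hold
          · rcases List.mem_cons.mp hh with hh | hh
            · exact hh
            · exact absurd (Or.inr hh) hold
        subst hh'
        exact ⟨p, m, c3, c4, c5⟩
    match fs, hlen, hfs with
    | [], _, _ =>
      refine ⟨[], by simpa using h1, by simp, _, _, Or.inl (hB'c (G [])),
        Or.inl (hB'c (!G [])), fun x _ => ⟨rfl, rfl⟩⟩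
    | [f], _, hfs =>
      obtain ⟨pf, mf, a1, a2, a3⟩ := h3 f (hfs f (by simp))
      refine ⟨[], by simpa using h1, by simp, ?_⟩
      simp only [List.nil_append, List.map_cons, List.map_nil]
      cases ht : G [true] <;> cases hf : G [false]
      · refine ⟨_, _, Or.inl (hB'c false), Or.inl (hB'c true), fun x _ => ?_⟩
        cases f x <;> simp [ht, hf]
      · refine ⟨mf, pf, a2, a1, fun x hx => ?_⟩
        rw [(a3 x hx).1, (a3 x hx).2]
        cases f x <;> simp [ht, hf]
      · refine ⟨pf, mf, a1, a2, fun x hx => ?_⟩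
        rw [(a3 x hx).1, (a3 x hx).2]
        cases f x <;> simp [ht, hf]
      · refine ⟨_, _, Or.inl (hB'c true), Or.inl (hB'c false), fun x _ => ?_⟩
        cases f x <;> simp [ht, hf]
    | [f, g], _, hfs =>
      obtain ⟨pf, mf, a1, a2, a3⟩ := h3 f (hfs f (by simp))
      obtain ⟨pg, mg, b1, b2, b3⟩ := h3 g (hfs g (by simp))
      have d1 := MProg.and h1 a1 b1
      have d2 := MProg.and d1 (a1.cons _) (b2.cons _)
      have d3 := MProg.and d2 ((a2.cons _).cons _) ((b1.cons _).cons _)
      have d4 := MProg.and d3 (((a2.cons _).cons _).cons _) (((b2.cons _).cons _).cons _)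
      let F : Bool × Bool → (X → Bool) := fun c x => sel pf mf c.1 x && sel pg mg c.2 x
      let prs : List (Bool × Bool) := [(false, false), (false, true), (true, false), (true, true)]
      have hF : ∀ c, F c ∈ ([F (false, false), F (false, true), F (true, false),
          F (true, true)] ++ (L' ++ L0)) := by
        rintro ⟨_ | _, _ | _⟩ <;> simp
      have d5 : MProg B' ([F (false, false), F (false, true), F (true, false),
          F (true, true)] ++ (L' ++ L0)) := d4
      obtain ⟨L3, e1, e2, e3⟩ := or_prog d5 (fun _ => false) (Or.inl (hB'c false))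
        ((prs.filter (fun c => G [c.1, c.2])).map F) (by
          intro h hh
          obtain ⟨c, -, rfl⟩ := List.mem_map.mp hh
          exact Or.inr (hF c))
      obtain ⟨L4, e4, e5, e6⟩ := or_prog e1 (fun _ => false) (Or.inl (hB'c false))
        ((prs.filter (fun c => !G [c.1, c.2])).map F) (by
          intro h hh
          obtain ⟨c, -, rfl⟩ := List.mem_map.mp hh
          exact Or.inr (List.mem_append_right _ (hF c)))
      have hl1 : ((prs.filter (fun c => G [c.1, c.2])).map F).length ≤ 4 := by
        rw [List.length_map]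
        exact List.length_filter_le _ _
      have hl2 : ((prs.filter (fun c => !G [c.1, c.2])).map F).length ≤ 4 := by
        rw [List.length_map]
        exact List.length_filter_le _ _
      have hsem : ∀ x ∈ D, ∀ c, F c x = decide (c = (f x, g x)) := by
        intro x hx c
        obtain ⟨c1, c2⟩ := c
        simp only [F, sel]
        have q1 := (a3 x hx).1
        have q2 := (a3 x hx).2
        have q3 := (b3 x hx).1
        have q4 := (b3 x hx).2
        cases c1 <;> cases c2 <;> simp only [if_true, Bool.false_eq_true, if_false, q1, q2, q3, q4] <;>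
          cases f x <;> cases g x <;> decide
      refine ⟨L4 ++ (L3 ++ [F (false, false), F (false, true), F (true, false),
          F (true, true)]), ?_, ?_,
          fun x => false || ((prs.filter (fun c => G [c.1, c.2])).map F).any (fun g => g x),
          fun x => false || ((prs.filter (fun c => !G [c.1, c.2])).map F).any (fun g => g x),
          ?_, ?_, ?_⟩
      · simpa [List.append_assoc] using e4
      · simp only [List.length_append, List.length_cons, List.length_nil]
        omega
      · have := e3.mono L4
        simpa [List.append_assoc] using this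
      · simpa [List.append_assoc] using e6
      · intro x hx
        simp only [List.map_cons, List.map_nil, Bool.false_or]
        have hany : ∀ (Pr : Bool × Bool → Bool), ((prs.filter Pr).map F).any (fun h => h x) =
            Pr (f x, g x) := by
          intro Pr
          rw [List.any_map]
          rw [Bool.eq_iff_iff, List.any_eq_true]
          constructor
          · rintro ⟨c, hc, hc2⟩
            rw [List.mem_filter] at hc
            simp only [Function.comp] at hc2
            rw [hsem x hx, decide_eq_true_eq] at hc2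
            rw [← hc2]
            exact hc.2
          · intro h
            refine ⟨(f x, g x), List.mem_filter.mpr ⟨?_, h⟩, ?_⟩
            · cases f x <;> cases g x <;> simp [prs]
            · simp only [Function.comp]
              rw [hsem x hx]
              simp
        rw [hany, hany]
        exact ⟨rfl, rfl⟩

end Pool.Agent.H694R2.QM
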